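import Pool.Agent.H47.WT.Defs

set_option autoImplicit false

namespace Pool.Agent.H47.WT

open Finsupp

section P2

variable {H : Type} [Group H]

/-- left multiplication -/
noncomputable def p2L (g : H) : (H →₀ ℤ) →+ (H →₀ ℤ) :=
  Finsupp.mapDomain.addMonoidHom (fun x => g * x)

/-- right multiplication -/
noncomputable def p2R (c : H) : (H →₀ ℤ) →+ (H →₀ ℤ) :=
  Finsupp.mapDomain.addMonoidHom (fun x => x * c)

theorem p2L_apply (g : H) (x : H →₀ ℤ) : p2L g x = x.mapDomain (fun y => g * y) := rfl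

theorem p2R_apply (c : H) (x : H →₀ ℤ) : p2R c x = x.mapDomain (fun y => y * c) := rfl

theorem p2L_single (g h : H) (n : ℤ) : p2L g (single h n) = single (g * h) n := by
  rw [p2L_apply, mapDomain_single]

theorem p2R_single (c h : H) (n : ℤ) : p2R c (single h n) = single (h * c) n := by
  rw [p2R_apply, mapDomain_single]

theorem p2L_one (x : H →₀ ℤ) : p2L 1 x = x := by
  rw [p2L_apply]
  simp only [one_mul]
  exact mapDomain_id

theorem p2L_mul (g h : H) (x : H →₀ ℤ) : p2L (g * h) x = p2L g (p2L h x) := by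
  rw [p2L_apply, p2L_apply, p2L_apply, ← mapDomain_comp]
  congr 1
  funext y
  simp [mul_assoc]

theorem p2LR (g c : H) (x : H →₀ ℤ) : p2L g (p2R c x) = p2R c (p2L g x) := by
  rw [p2L_apply, p2R_apply, p2L_apply, p2R_apply, ← mapDomain_comp, ← mapDomain_comp]
  congr 1
  funext y
  simp [mul_assoc]

variable {ι : Type}

/-- action on families -/
noncomputable def p2A (g : H) : (ι → H →₀ ℤ) →+ (ι → H →₀ ℤ) where
  toFun x := fun i => p2L g (x i)
  map_zero' := by ext1 i; simp
  map_add' x y := by ext1 i; simp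

theorem p2A_apply (g : H) (x : ι → H →₀ ℤ) (i : ι) : p2A g x i = p2L g (x i) := rfl

theorem p2A_one (x : ι → H →₀ ℤ) : p2A 1 x = x := by
  funext i; rw [p2A_apply, p2L_one]

theorem p2A_mul (g h : H) (x : ι → H →₀ ℤ) : p2A (g * h) x = p2A g (p2A h x) := by
  funext i; rw [p2A_apply, p2A_apply, p2A_apply, p2L_mul]

theorem p2A_inv_left (g : H) (x : ι → H →₀ ℤ) : p2A g⁻¹ (p2A g x) = x := by
  rw [← p2A_mul, inv_mul_cancel, p2A_one]

theorem p2A_inv_right (g : H) (x : ι → H →₀ ℤ) : p2A g (p2A g⁻¹ x) = x := by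
  rw [← p2A_mul, mul_inv_cancel, p2A_one]

variable [DecidableEq ι]

theorem p2A_single (g : H) (i : ι) (x : H →₀ ℤ) :
    p2A g (Pi.single i x) = Pi.single i (p2L g x) := by
  funext j
  rw [p2A_apply]
  by_cases h : j = i
  · subst h; simp
  · simp [Pi.single_eq_of_ne h]

/-- the affine permutations of the generators -/
noncomputable def p2E (φ : FreeGroup ι →* H) (i : ι) : Equiv.Perm (ι → H →₀ ℤ) where
  toFun x := p2A (φ (FreeGroup.of i)) x + Pi.single i (single 1 1)
  invFun x := p2A (φ (FreeGroup.of i))⁻¹ (x - Pi.single i (single 1 1))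
  left_inv x := by
    show p2A (φ (FreeGroup.of i))⁻¹ (p2A (φ (FreeGroup.of i)) x + Pi.single i (single 1 1) -
      Pi.single i (single 1 1)) = x
    rw [add_sub_cancel_right, p2A_inv_left]
  right_inv x := by
    show p2A (φ (FreeGroup.of i)) (p2A (φ (FreeGroup.of i))⁻¹ (x - Pi.single i (single 1 1))) +
      Pi.single i (single 1 1) = x
    rw [p2A_inv_right, sub_add_cancel]

theorem p2E_apply (φ : FreeGroup ι →* H) (i : ι) (x : ι → H →₀ ℤ) :
    p2E φ i x = p2A (φ (FreeGroup.of i)) x + Pi.single i (single 1 1) := rfl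

/-- Fox derivative -/
noncomputable def p2D (φ : FreeGroup ι →* H) (w : FreeGroup ι) : ι → H →₀ ℤ :=
  FreeGroup.lift (p2E φ) w 0

theorem p2_aff (φ : FreeGroup ι →* H) (w : FreeGroup ι) :
    ∀ x, FreeGroup.lift (p2E φ) w x = p2A (φ w) x + p2D φ w := by
  induction w using FreeGroup.induction_on with
  | C1 => intro x; simp [p2D, p2A_one]
  | of i =>
    intro x
    have h : FreeGroup.lift (p2E φ) (FreeGroup.of i) = p2E φ i := FreeGroup.lift_apply_of
    show FreeGroup.lift (p2E φ) (FreeGroup.of i) x = p2A (φ (FreeGroup.of i)) x +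
      FreeGroup.lift (p2E φ) (FreeGroup.of i) 0
    rw [h, p2E_apply, p2E_apply, map_zero, zero_add]
  | inv_of i ih =>
    intro x
    have key : ∀ y, FreeGroup.lift (p2E φ) (FreeGroup.of i)⁻¹ y =
        p2A (φ (FreeGroup.of i))⁻¹ (y - p2D φ (FreeGroup.of i)) := by
      intro y
      have h1 : FreeGroup.lift (p2E φ) (FreeGroup.of i)
          (FreeGroup.lift (p2E φ) (FreeGroup.of i)⁻¹ y) = y := by
        rw [← Equiv.Perm.mul_apply, ← map_mul, mul_inv_cancel, map_one]; rfl
      have h2 := ih (FreeGroup.lift (p2E φ) (FreeGroup.of i)⁻¹ y)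
      have h3 : y - p2D φ (FreeGroup.of i) =
          p2A (φ (FreeGroup.of i)) (FreeGroup.lift (p2E φ) (FreeGroup.of i)⁻¹ y) := by
        have h4 : FreeGroup.lift (p2E φ) (FreeGroup.of i)
          (FreeGroup.lift (p2E φ) (FreeGroup.of i)⁻¹ y) = p2A (φ (FreeGroup.of i))
            (FreeGroup.lift (p2E φ) (FreeGroup.of i)⁻¹ y) + p2D φ (FreeGroup.of i) := h2
        rw [h1] at h4
        exact sub_eq_of_eq_add h4
      rw [h3, p2A_inv_left]
    show FreeGroup.lift (p2E φ) (FreeGroup.of i)⁻¹ x = p2A (φ (FreeGroup.of i)⁻¹) x +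
      FreeGroup.lift (p2E φ) (FreeGroup.of i)⁻¹ 0
    rw [key, key, map_inv, map_sub, map_sub, map_zero]
    abel
  | mul v w hv hw =>
    intro x
    have h0 : ∀ y, FreeGroup.lift (p2E φ) (v * w) y =
        FreeGroup.lift (p2E φ) v (FreeGroup.lift (p2E φ) w y) := by
      intro y; rw [map_mul]; rfl
    show _ = _ + FreeGroup.lift (p2E φ) (v * w) 0
    rw [h0, h0, hv, hw x, hv (FreeGroup.lift (p2E φ) w 0), hw 0, map_mul, p2A_mul, map_zero, zero_add,
      map_add]
    abel

theorem p2D_mul (φ : FreeGroup ι →* H) (v w : FreeGroup ι) :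
    p2D φ (v * w) = p2D φ v + p2A (φ v) (p2D φ w) := by
  have h0 : p2D φ (v * w) = FreeGroup.lift (p2E φ) v (p2D φ w) := by
    unfold p2D; rw [map_mul]; rfl
  rw [h0, p2_aff]; abel

theorem p2D_of (φ : FreeGroup ι →* H) (i : ι) :
    p2D φ (FreeGroup.of i) = Pi.single i (single 1 1) := by
  have h : FreeGroup.lift (p2E φ) (FreeGroup.of i) = p2E φ i := FreeGroup.lift_apply_of
  unfold p2D
  rw [h, p2E_apply, map_zero, zero_add]

variable [Fintype ι]

/-- `iota a = Σ a_i (c_i - 1)` -/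
noncomputable def p2I (φ : FreeGroup ι →* H) : (ι → H →₀ ℤ) →+ (H →₀ ℤ) where
  toFun a := ∑ i, (p2R (φ (FreeGroup.of i)) (a i) - a i)
  map_zero' := by simp
  map_add' x y := by
    rw [← Finset.sum_add_distrib]
    refine Finset.sum_congr rfl fun i _ => ?_
    simp only [Pi.add_apply, map_add]
    abel

theorem p2I_apply (φ : FreeGroup ι →* H) (a : ι → H →₀ ℤ) :
    p2I φ a = ∑ i, (p2R (φ (FreeGroup.of i)) (a i) - a i) := rfl

theorem p2I_equiv (φ : FreeGroup ι →* H) (g : H) (a : ι → H →₀ ℤ) :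
    p2L g (p2I φ a) = p2I φ (p2A g a) := by
  rw [p2I_apply, p2I_apply, map_sum]
  refine Finset.sum_congr rfl fun i _ => ?_
  rw [map_sub, p2LR, p2A_apply]

theorem p2I_single (φ : FreeGroup ι →* H) (i : ι) (m : H →₀ ℤ) :
    p2I φ (Pi.single i m) = p2R (φ (FreeGroup.of i)) m - m := by
  rw [p2I_apply, Finset.sum_eq_single i]
  · simp
  · intro j _ hj
    rw [Pi.single_eq_of_ne hj]; simp
  · intro h; exact absurd (Finset.mem_univ i) h

/-- the choice of representatives -/
noncomputable def p2t (φ : FreeGroup ι →* H) (h : H) : H := (h : H ⧸ φ.range).out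

theorem p2_ex (φ : FreeGroup ι →* H) (h : H) : ∃ w : FreeGroup ι, h = p2t φ h * φ w := by
  have h1 : (QuotientGroup.mk (p2t φ h) : H ⧸ φ.range) = QuotientGroup.mk h := by
    unfold p2t; exact Quotient.out_eq' _
  rw [QuotientGroup.eq] at h1
  obtain ⟨w, hw⟩ := h1
  exact ⟨w, by rw [hw]; group⟩

noncomputable def p2w (φ : FreeGroup ι →* H) (h : H) : FreeGroup ι := (p2_ex φ h).choose

theorem p2w_spec (φ : FreeGroup ι →* H) (h : H) : h = p2t φ h * φ (p2w φ h) := (p2_ex φ h).choose_spec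

theorem p2t_mul (φ : FreeGroup ι →* H) (h : H) (w : FreeGroup ι) : p2t φ (h * φ w) = p2t φ h := by
  unfold p2t
  congr 1
  rw [QuotientGroup.eq]
  exact ⟨w⁻¹, by rw [map_inv]; group⟩

theorem p2w_mul (φ : FreeGroup ι →* H) (hφ : Function.Injective φ) (h : H) (w : FreeGroup ι) :
    p2w φ (h * φ w) = p2w φ h * w := by
  apply hφ
  have h1 := p2w_spec φ (h * φ w)
  have h2 := p2w_spec φ h
  rw [p2t_mul] at h1
  rw [map_mul]
  have h3 : p2t φ h * φ (p2w φ (h * φ w)) = p2t φ h * (φ (p2w φ h) * φ w) := by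
    rw [← h1, ← mul_assoc, ← h2]
  exact mul_left_cancel h3

/-- the left inverse of `iota` -/
noncomputable def p2d (φ : FreeGroup ι →* H) : (H →₀ ℤ) →+ (ι → H →₀ ℤ) :=
  Finsupp.liftAddHom (fun h => zmultiplesHom _ (p2A (p2t φ h) (p2D φ (p2w φ h))))

theorem p2d_single (φ : FreeGroup ι →* H) (h : H) (n : ℤ) :
    p2d φ (single h n) = n • p2A (p2t φ h) (p2D φ (p2w φ h)) := by
  unfold p2d
  rw [Finsupp.liftAddHom_apply_single, zmultiplesHom_apply]

theorem p2d_R (φ : FreeGroup ι →* H) (hφ : Function.Injective φ) (i : ι) (m : H →₀ ℤ) :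
    p2d φ (p2R (φ (FreeGroup.of i)) m - m) = Pi.single i m := by
  induction m using Finsupp.induction_linear with
  | zero => simp
  | add x y hx hy =>
    rw [Pi.single_add, ← hx, ← hy, ← map_add]
    congr 1
    rw [map_add]; abel
  | single h n =>
    rw [p2R_single, map_sub, p2d_single, p2d_single, p2t_mul, p2w_mul φ hφ, p2D_mul, ← zsmul_sub,
      map_add, add_sub_cancel_left, p2D_of, ← p2A_mul, ← p2w_spec, p2A_single, p2L_single, mul_one,
      ← Pi.single_zsmul]
    simp

theorem p2d_I (φ : FreeGroup ι →* H) (hφ : Function.Injective φ) (a : ι → H →₀ ℤ) :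
    p2d φ (p2I φ a) = a := by
  rw [p2I_apply, map_sum]
  simp only [p2d_R φ hφ]
  exact Finset.univ_sum_single a

theorem p2_mem (φ : FreeGroup ι →* H) (w : FreeGroup ι) :
    ∀ (h : H) (n : ℤ), single (h * φ w) n - single h n ∈ (p2I φ).range := by
  induction w using FreeGroup.induction_on with
  | C1 => intro h n; simp
  | of i =>
    intro h n
    refine ⟨Pi.single i (single h n), ?_⟩
    rw [p2I_single, p2R_single]
  | inv_of i ih =>
    intro h n
    have h1 := ih (h * φ (FreeGroup.of i)⁻¹) n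
    have h2 := (p2I φ).range.neg_mem h1
    have h3 : h * φ (FreeGroup.of i)⁻¹ * φ (FreeGroup.of i) = h := by
      rw [mul_assoc, ← map_mul, inv_mul_cancel, map_one, mul_one]
    have h4 : -(single (h * φ (FreeGroup.of i)⁻¹ * φ (FreeGroup.of i)) n -
      single (h * φ (FreeGroup.of i)⁻¹) n) ∈ (p2I φ).range := h2
    rw [h3, neg_sub] at h4
    exact h4
  | mul v w hv hw =>
    intro h n
    have h1 := hv h n
    have h2 := hw (h * φ v) n
    have h3 := (p2I φ).range.add_mem h2 h1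
    rw [sub_add_sub_cancel, mul_assoc, ← map_mul] at h3
    exact h3

theorem p2_ker (φ : FreeGroup ι →* H) (b : H →₀ ℤ) :
    b - b.mapDomain (p2t φ) ∈ (p2I φ).range := by
  induction b using Finsupp.induction_linear with
  | zero => simp
  | add x y hx hy =>
    have := (p2I φ).range.add_mem hx hy
    rw [mapDomain_add]
    have e : x + y - (mapDomain (p2t φ) x + mapDomain (p2t φ) y) =
      x - mapDomain (p2t φ) x + (y - mapDomain (p2t φ) y) := by abel
    rw [e]; exact this
  | single h n =>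
    rw [mapDomain_single]
    have := p2_mem φ (p2w φ h) (p2t φ h) n
    rw [← p2w_spec] at this
    exact this

theorem p2_pi_ker (φ : FreeGroup ι →* H) (hφ : Function.Injective φ) (b : H →₀ ℤ)
    (hb : b.mapDomain (QuotientGroup.mk : H → H ⧸ φ.range) = 0) : p2I φ (p2d φ b) = b := by
  have h1 : b.mapDomain (p2t φ) = 0 := by
    have : p2t φ = Quotient.out ∘ (QuotientGroup.mk : H → H ⧸ φ.range) := rfl
    rw [this, mapDomain_comp, hb, mapDomain_zero]
  have h2 := p2_ker φ b
  rw [h1, sub_zero] at h2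
  obtain ⟨a, ha⟩ := h2
  rw [← ha, p2d_I φ hφ]

theorem p2_pi_I (φ : FreeGroup ι →* H) (a : ι → H →₀ ℤ) :
    (p2I φ a).mapDomain (QuotientGroup.mk : H → H ⧸ φ.range) = 0 := by
  have h0 : ∀ x : H →₀ ℤ, x.mapDomain (QuotientGroup.mk : H → H ⧸ φ.range) =
    Finsupp.mapDomain.addMonoidHom (QuotientGroup.mk : H → H ⧸ φ.range) x := fun x => rfl
  rw [p2I_apply, h0, map_sum]
  refine Finset.sum_eq_zero fun i _ => ?_
  rw [map_sub, sub_eq_zero, ← h0, ← h0, p2R_apply, ← mapDomain_comp]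
  congr 1
  funext y
  show (QuotientGroup.mk (y * φ (FreeGroup.of i)) : H ⧸ φ.range) = QuotientGroup.mk y
  rw [QuotientGroup.eq]
  exact ⟨(FreeGroup.of i)⁻¹, by rw [map_inv]; group⟩

end P2

/-- P2 -/
theorem van_free {H : Type} [Group H] (h1 : Van H H) (h2 : Van2 H) {ι : Type} [Finite ι]
    (φ : FreeGroup ι →* H)
    (hφ : Function.Injective φ) : Van H (H ⧸ φ.range) := by
  classical
  haveI := Fintype.ofFinite ι
  intro f hf
  -- lift
  obtain ⟨f', hf'⟩ : ∃ f' : H → (H →₀ ℤ), ∀ g, f' g = (f g).mapDomain Quotient.out :=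
    ⟨_, fun _ => rfl⟩
  have hpi : ∀ g, (f' g).mapDomain (QuotientGroup.mk : H → H ⧸ φ.range) = f g := by
    intro g
    rw [hf', ← mapDomain_comp]
    have : (QuotientGroup.mk : H → H ⧸ φ.range) ∘ Quotient.out = id := by
      funext x; exact Quotient.out_eq' x
    rw [this, mapDomain_id]
  have hpiL : ∀ (g : H) (x : H →₀ ℤ), (p2L g x).mapDomain (QuotientGroup.mk : H → H ⧸ φ.range) =
      (x.mapDomain (QuotientGroup.mk : H → H ⧸ φ.range)).mapDomain (fun y => g • y) := by
    intro g x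
    rw [p2L_apply, ← mapDomain_comp, ← mapDomain_comp]
    rfl
  have hpiadd : ∀ x y : H →₀ ℤ, (x + y).mapDomain (QuotientGroup.mk : H → H ⧸ φ.range) =
      x.mapDomain QuotientGroup.mk + y.mapDomain QuotientGroup.mk := fun x y => mapDomain_add
  have hpisub : ∀ x y : H →₀ ℤ, (x - y).mapDomain (QuotientGroup.mk : H → H ⧸ φ.range) =
      x.mapDomain QuotientGroup.mk - y.mapDomain QuotientGroup.mk := fun x y =>
    map_sub (Finsupp.mapDomain.addMonoidHom (QuotientGroup.mk : H → H ⧸ φ.range)) x y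
  obtain ⟨k, hk⟩ : ∃ k : H → H → (H →₀ ℤ), ∀ g h, k g h = p2L g (f' h) - f' (g * h) + f' g :=
    ⟨_, fun _ _ => rfl⟩
  have hkpi : ∀ g h, (k g h).mapDomain (QuotientGroup.mk : H → H ⧸ φ.range) = 0 := by
    intro g h
    rw [hk, hpiadd, hpisub, hpiL, hpi, hpi, hpi, hf g h]
    abel
  have hkI : ∀ g h, p2I φ (p2d φ (k g h)) = k g h := fun g h => p2_pi_ker φ hφ _ (hkpi g h)
  have hinj : Function.Injective (p2I φ) := by
    intro a b hab
    rw [← p2d_I φ hφ a, hab, p2d_I φ hφ b]
  have hcoc : ∀ a b c : H, p2A a (p2d φ (k b c)) + p2d φ (k a (b * c)) =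
      p2d φ (k (a * b) c) + p2d φ (k a b) := by
    intro a b c
    apply hinj
    rw [map_add, map_add, ← p2I_equiv, hkI, hkI, hkI, hkI, hk, hk, hk, hk]
    simp only [map_add, map_sub]
    rw [p2L_mul, mul_assoc]
    abel
  have hw : ∀ i : ι, ∃ w : H → (H →₀ ℤ), ∀ a b : H,
      p2d φ (k a b) i = (w b).mapDomain (fun x => a * x) - w (a * b) + w a := by
    intro i
    refine h2 (fun a b => p2d φ (k a b) i) ?_
    intro a b c
    have := congrFun (hcoc a b c) i
    simpa [Pi.add_apply, p2A_apply, p2L_apply] using this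
  choose w hw using hw
  obtain ⟨W, hW⟩ : ∃ W : H → (ι → H →₀ ℤ), ∀ g i, W g i = w i g := ⟨fun g i => w i g, fun _ _ => rfl⟩
  have hWk : ∀ a b, p2d φ (k a b) = p2A a (W b) - W (a * b) + W a := by
    intro a b
    funext i
    rw [hw i a b, Pi.add_apply, Pi.sub_apply, p2A_apply, hW, hW, hW, p2L_apply]
  have hF : Coc (X := H) (fun g => f' g - p2I φ (W g)) := by
    intro g h
    have e1 := hkI g h
    rw [hWk, map_add, map_sub, ← p2I_equiv] at e1
    rw [hk] at e1
    have e3 : (f' h - p2I φ (W h)).mapDomain (fun x => g • x) =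
        p2L g (f' h) - p2L g (p2I φ (W h)) := by
      rw [← map_sub]; rfl
    show f' (g * h) - p2I φ (W (g * h)) = f' g - p2I φ (W g) +
      (f' h - p2I φ (W h)).mapDomain (fun x => g • x)
    rw [e3]
    have e4 : p2L g (f' h) = p2L g (p2I φ (W h)) - p2I φ (W (g * h)) + p2I φ (W g) +
      f' (g * h) - f' g := by
      rw [e1]; abel
    rw [e4]; abel
  obtain ⟨x, hx⟩ := h1 _ hF
  refine ⟨x.mapDomain (QuotientGroup.mk : H → H ⧸ φ.range), fun g => ?_⟩
  have e1 : f' g = p2I φ (W g) + (p2L g x - x) := by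
    have := hx g
    have e : f' g - p2I φ (W g) = p2L g x - x := this
    rw [← e]; abel
  rw [← hpi g, e1, hpiadd, p2_pi_I, hpisub, hpiL, zero_add]

end Pool.Agent.H47.WT
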